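import Pool.Agent.Y6.G.Stm3

/-!
# Job EQ-FAM: almost every member of a large family has a detuning
-/

set_option autoImplicit false

open Set Filter Topology

namespace Pool.Agent.Y312.EP.Fam

open Pool.Agent.Y6.G
open Pool.Agent.Y6.F (rk code cd ln S_CODE)
open Pool.Agent.Y6.M (Z3 nsq len Md br)

/-! ### Evaluation -/

theorem ev_X (k : Z3) (j : Fin 3) : ev (MvPolynomial.X j) k = (k j : ℝ) := by
  unfold ev
  rw [MvPolynomial.eval_X]

theorem ev_C (k : Z3) (c : ℝ) : ev (MvPolynomial.C c) k = c := by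
  unfold ev
  rw [MvPolynomial.eval_C]

theorem ev_zero (k : Z3) : ev 0 k = 0 := by
  unfold ev
  rw [map_zero]

theorem ev_add (k : Z3) (p q : MvPolynomial (Fin 3) ℝ) : ev (p + q) k = ev p k + ev q k := by
  unfold ev
  rw [map_add]

theorem ev_sub (k : Z3) (p q : MvPolynomial (Fin 3) ℝ) : ev (p - q) k = ev p k - ev q k := by
  unfold ev
  rw [map_sub]

theorem ev_mul (k : Z3) (p q : MvPolynomial (Fin 3) ℝ) : ev (p * q) k = ev p k * ev q k := by
  unfold ev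
  rw [map_mul]

theorem ev_pow (k : Z3) (p : MvPolynomial (Fin 3) ℝ) (n : ℕ) : ev (p ^ n) k = ev p k ^ n := by
  unfold ev
  rw [map_pow]

theorem ev_sum {ι : Type*} (k : Z3) (s : Finset ι) (f : ι → MvPolynomial (Fin 3) ℝ) :
    ev (∑ i ∈ s, f i) k = ∑ i ∈ s, ev (f i) k := by
  unfold ev
  rw [map_sum]

theorem Ep_false : Ep false = ((MvPolynomial.X 1 - MvPolynomial.X 0 ^ 61) ^ 2 +
    MvPolynomial.X 2 ^ 2) * ((MvPolynomial.X 2 - MvPolynomial.X 1 ^ 61) ^ 2 +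
    MvPolynomial.X 0 ^ 2) * ((MvPolynomial.X 0 - MvPolynomial.X 2 ^ 61) ^ 2 +
    MvPolynomial.X 1 ^ 2) := rfl

theorem Ep_true : Ep true = (MvPolynomial.X 0 ^ 2 + MvPolynomial.X 1 ^ 2) *
    (MvPolynomial.X 1 ^ 2 + MvPolynomial.X 2 ^ 2) *
    (MvPolynomial.X 2 ^ 2 + MvPolynomial.X 0 ^ 2) := rfl

theorem EZ_false (k : Z3) : EZ false k = ((k 1 - k 0 ^ 61) ^ 2 + k 2 ^ 2) *
    ((k 2 - k 1 ^ 61) ^ 2 + k 0 ^ 2) * ((k 0 - k 2 ^ 61) ^ 2 + k 1 ^ 2) := rfl

theorem EZ_true (k : Z3) : EZ true k = (k 0 ^ 2 + k 1 ^ 2) * (k 1 ^ 2 + k 2 ^ 2) *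
    (k 2 ^ 2 + k 0 ^ 2) := rfl

theorem ev_Ep (s : Bool) (k : Z3) : ev (Ep s) k = (EZ s k : ℝ) := by
  cases s
  · rw [Ep_false, EZ_false]
    simp only [ev_mul, ev_add, ev_sub, ev_pow, ev_X, Int.cast_mul, Int.cast_add, Int.cast_sub,
      Int.cast_pow]
  · rw [Ep_true, EZ_true]
    simp only [ev_mul, ev_add, ev_pow, ev_X, Int.cast_mul, Int.cast_add, Int.cast_pow]

theorem ev_vp (r : Fin 15) (k : Z3) : ev (vp r) k = (vz r k : ℝ) := by
  unfold vp vz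
  simp only [ev_mul, ev_add, ev_X, ev_C, Int.cast_mul, Int.cast_add, Int.cast_pow,
    Int.cast_natCast]

theorem EZ_neg (s : Bool) (k : Z3) : EZ s (-k) = EZ s k := by
  have hodd : ∀ a : ℤ, (-a) ^ 61 = -(a ^ 61) := fun a => Odd.neg_pow (by decide) a
  cases s
  · rw [EZ_false, EZ_false]
    simp only [Pi.neg_apply]
    rw [hodd, hodd, hodd]
    have h3 : ∀ a b : ℤ, (-a - -b) ^ 2 = (a - b) ^ 2 := fun a b => by ring
    have h4 : ∀ a : ℤ, (-a) ^ 2 = a ^ 2 := fun a => neg_sq a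
    rw [h3, h3, h3, h4, h4, h4]
  · rw [EZ_true, EZ_true]
    simp only [Pi.neg_apply, neg_sq]

theorem vz_neg (r : Fin 15) (k : Z3) : vz r (-k) = -vz r k := by
  unfold vz
  simp only [Pi.neg_apply]
  ring

/-! ### Degrees -/

theorem deg_mul {p q : MvPolynomial (Fin 3) ℝ} {a b : ℕ} (hp : p.totalDegree ≤ a)
    (hq : q.totalDegree ≤ b) : (p * q).totalDegree ≤ a + b :=
  (MvPolynomial.totalDegree_mul p q).trans (add_le_add hp hq)

theorem deg_add {p q : MvPolynomial (Fin 3) ℝ} {a : ℕ} (hp : p.totalDegree ≤ a)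
    (hq : q.totalDegree ≤ a) : (p + q).totalDegree ≤ a :=
  (MvPolynomial.totalDegree_add p q).trans (max_le hp hq)

theorem deg_sub {p q : MvPolynomial (Fin 3) ℝ} {a : ℕ} (hp : p.totalDegree ≤ a)
    (hq : q.totalDegree ≤ a) : (p - q).totalDegree ≤ a :=
  (MvPolynomial.totalDegree_sub p q).trans (max_le hp hq)

theorem deg_pow {p : MvPolynomial (Fin 3) ℝ} {a : ℕ} (n : ℕ) (hp : p.totalDegree ≤ a) :
    (p ^ n).totalDegree ≤ n * a :=
  (MvPolynomial.totalDegree_pow p n).trans (Nat.mul_le_mul_left n hp)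

theorem deg_X (j : Fin 3) : (MvPolynomial.X j : MvPolynomial (Fin 3) ℝ).totalDegree ≤ 1 :=
  (MvPolynomial.totalDegree_X j).le

theorem deg_C (c : ℝ) (a : ℕ) : (MvPolynomial.C c : MvPolynomial (Fin 3) ℝ).totalDegree ≤ a :=
  (MvPolynomial.totalDegree_C c).le.trans (Nat.zero_le a)

theorem deg_Ep (s : Bool) : (Ep s).totalDegree ≤ 366 := by
  cases s
  · have h2 : ∀ a b c : Fin 3, ((MvPolynomial.X a - MvPolynomial.X b ^ 61) ^ 2 +
        MvPolynomial.X c ^ 2 : MvPolynomial (Fin 3) ℝ).totalDegree ≤ 122 := by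
      intro a b c
      apply deg_add
      · have h3 : (MvPolynomial.X a - MvPolynomial.X b ^ 61 :
            MvPolynomial (Fin 3) ℝ).totalDegree ≤ 61 := by
          apply deg_sub
          · exact (deg_X a).trans (by omega)
          · have := deg_pow 61 (deg_X b)
            omega
        have := deg_pow 2 h3
        omega
      · have := deg_pow 2 (deg_X c)
        omega
    rw [Ep_false]
    exact deg_mul (deg_mul (h2 _ _ _) (h2 _ _ _)) (h2 _ _ _)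
  · have h2 : ∀ a b : Fin 3, (MvPolynomial.X a ^ 2 + MvPolynomial.X b ^ 2 :
        MvPolynomial (Fin 3) ℝ).totalDegree ≤ 2 := by
      intro a b
      apply deg_add
      · have := deg_pow 2 (deg_X a)
        omega
      · have := deg_pow 2 (deg_X b)
        omega
    rw [Ep_true]
    exact (deg_mul (deg_mul (h2 _ _) (h2 _ _)) (h2 _ _)).trans (by omega)

theorem deg_vp (r : Fin 15) : (vp r).totalDegree ≤ 1 := by
  unfold vp
  apply deg_add
  · apply deg_add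
    · exact deg_X 0
    · exact deg_mul (deg_C _ 0) (deg_X 1)
  · exact deg_mul (deg_C _ 0) (deg_X 2)

/-! ### The test polynomials -/

/-- the product of the factor and of a power of a linear form -/
noncomputable def pq (s : Bool) (r : Fin 15) (j : Fin 3) : MvPolynomial (Fin 3) ℝ :=
  Ep s * vp r ^ (1831 + 2 * j.1)

noncomputable def Aq (q : Bool × Fin 15 × Fin 3) : MvPolynomial (Fin 3) ℝ :=
  if q.1 = true then pq true q.2.1 q.2.2 else 0

noncomputable def Bq (q : Bool × Fin 15 × Fin 3) : MvPolynomial (Fin 3) ℝ :=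
  if q.1 = true then 0 else pq false q.2.1 q.2.2

theorem ev_pq (s : Bool) (r : Fin 15) (j : Fin 3) (k : Z3) :
    ev (pq s r j) k = (EZ s k : ℝ) * (vz r k : ℝ) ^ (1831 + 2 * j.1) := by
  unfold pq
  rw [ev_mul, ev_pow, ev_vp, ev_Ep]

theorem ev_pq_neg (s : Bool) (r : Fin 15) (j : Fin 3) (k : Z3) :
    ev (pq s r j) (-k) = -ev (pq s r j) k := by
  have hodd : Odd (1831 + 2 * j.1) := ⟨915 + j.1, by ring⟩
  rw [ev_pq, ev_pq, EZ_neg, vz_neg, Int.cast_neg, hodd.neg_pow, mul_neg]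

theorem deg_pq (s : Bool) (r : Fin 15) (j : Fin 3) : (pq s r j).totalDegree ≤ 2201 := by
  have h2 := deg_pow (1831 + 2 * j.1) (deg_vp r)
  have h3 := deg_mul (deg_Ep s) h2
  have h4 := j.2
  unfold pq
  omega

theorem EZ_axis (j : Fin 3) (t : ℤ) : EZ true (fun l => if l = j then t else 0) = 0 := by
  rw [EZ_true]
  fin_cases j
  · have h1 : (fun l : Fin 3 => if l = 0 then t else 0) 1 = 0 := if_neg (by decide)
    have h2 : (fun l : Fin 3 => if l = 0 then t else 0) 2 = 0 := if_neg (by decide)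
    show ((fun l : Fin 3 => if l = 0 then t else 0) 0 ^ 2 +
      (fun l : Fin 3 => if l = 0 then t else 0) 1 ^ 2) *
      ((fun l : Fin 3 => if l = 0 then t else 0) 1 ^ 2 +
      (fun l : Fin 3 => if l = 0 then t else 0) 2 ^ 2) *
      ((fun l : Fin 3 => if l = 0 then t else 0) 2 ^ 2 +
      (fun l : Fin 3 => if l = 0 then t else 0) 0 ^ 2) = 0
    rw [h1, h2]
    ring
  · have h1 : (fun l : Fin 3 => if l = 1 then t else 0) 0 = 0 := if_neg (by decide)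
    have h2 : (fun l : Fin 3 => if l = 1 then t else 0) 2 = 0 := if_neg (by decide)
    show ((fun l : Fin 3 => if l = 1 then t else 0) 0 ^ 2 +
      (fun l : Fin 3 => if l = 1 then t else 0) 1 ^ 2) *
      ((fun l : Fin 3 => if l = 1 then t else 0) 1 ^ 2 +
      (fun l : Fin 3 => if l = 1 then t else 0) 2 ^ 2) *
      ((fun l : Fin 3 => if l = 1 then t else 0) 2 ^ 2 +
      (fun l : Fin 3 => if l = 1 then t else 0) 0 ^ 2) = 0
    rw [h1, h2]
    ring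
  · have h1 : (fun l : Fin 3 => if l = 2 then t else 0) 0 = 0 := if_neg (by decide)
    have h2 : (fun l : Fin 3 => if l = 2 then t else 0) 1 = 0 := if_neg (by decide)
    show ((fun l : Fin 3 => if l = 2 then t else 0) 0 ^ 2 +
      (fun l : Fin 3 => if l = 2 then t else 0) 1 ^ 2) *
      ((fun l : Fin 3 => if l = 2 then t else 0) 1 ^ 2 +
      (fun l : Fin 3 => if l = 2 then t else 0) 2 ^ 2) *
      ((fun l : Fin 3 => if l = 2 then t else 0) 2 ^ 2 +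
      (fun l : Fin 3 => if l = 2 then t else 0) 0 ^ 2) = 0
    rw [h1, h2]
    ring

theorem EZ_curve (j : Fin 3) (t : ℤ) :
    EZ false (fun l => if l = j then t else if l = j + 1 then t ^ 61 else 0) = 0 := by
  have key : ∀ k : Z3, (k 1 = k 0 ^ 61 ∧ k 2 = 0) ∨ (k 2 = k 1 ^ 61 ∧ k 0 = 0) ∨
      (k 0 = k 2 ^ 61 ∧ k 1 = 0) → EZ false k = 0 := by
    intro k hk
    rw [EZ_false]
    rcases hk with ⟨h1, h2⟩ | ⟨h1, h2⟩ | ⟨h1, h2⟩
    · rw [sub_eq_zero.2 h1, h2]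
      simp only [ne_eq, OfNat.ofNat_ne_zero, not_false_eq_true, zero_pow, add_zero, zero_mul]
    · rw [sub_eq_zero.2 h1, h2]
      simp only [ne_eq, OfNat.ofNat_ne_zero, not_false_eq_true, zero_pow, add_zero, zero_mul,
        mul_zero]
    · rw [sub_eq_zero.2 h1, h2]
      simp only [ne_eq, OfNat.ofNat_ne_zero, not_false_eq_true, zero_pow, add_zero, mul_zero]
  apply key
  have hj : j = 0 ∨ j = 1 ∨ j = 2 := by
    fin_cases j
    · exact Or.inl rfl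
    · exact Or.inr (Or.inl rfl)
    · exact Or.inr (Or.inr rfl)
  rcases hj with h | h | h
  · subst h
    refine Or.inl ⟨?_, ?_⟩
    · show (if (1 : Fin 3) = 0 then t else if (1 : Fin 3) = 0 + 1 then t ^ 61 else 0) =
        (if (0 : Fin 3) = 0 then t else if (0 : Fin 3) = 0 + 1 then t ^ 61 else 0) ^ 61
      rw [if_neg (by decide), if_pos (by decide), if_pos (by decide)]
    · show (if (2 : Fin 3) = 0 then t else if (2 : Fin 3) = 0 + 1 then t ^ 61 else 0) = 0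
      rw [if_neg (by decide), if_neg (by decide)]
  · subst h
    refine Or.inr (Or.inl ⟨?_, ?_⟩)
    · show (if (2 : Fin 3) = 1 then t else if (2 : Fin 3) = 1 + 1 then t ^ 61 else 0) =
        (if (1 : Fin 3) = 1 then t else if (1 : Fin 3) = 1 + 1 then t ^ 61 else 0) ^ 61
      rw [if_neg (by decide), if_pos (by decide), if_pos (by decide)]
    · show (if (0 : Fin 3) = 1 then t else if (0 : Fin 3) = 1 + 1 then t ^ 61 else 0) = 0
      rw [if_neg (by decide), if_neg (by decide)]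
  · subst h
    refine Or.inr (Or.inr ⟨?_, ?_⟩)
    · show (if (0 : Fin 3) = 2 then t else if (0 : Fin 3) = 2 + 1 then t ^ 61 else 0) =
        (if (2 : Fin 3) = 2 then t else if (2 : Fin 3) = 2 + 1 then t ^ 61 else 0) ^ 61
      rw [if_neg (by decide), if_pos (by decide), if_pos (by decide)]
    · show (if (1 : Fin 3) = 2 then t else if (1 : Fin 3) = 2 + 1 then t ^ 61 else 0) = 0
      rw [if_neg (by decide), if_neg (by decide)]

theorem adm_q (q : Bool × Fin 15 × Fin 3) : Adm2 (Aq q) (Bq q) := by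
  obtain ⟨s, r, j⟩ := q
  cases s
  · have hA : Aq (false, r, j) = 0 := if_neg (by simp)
    have hB : Bq (false, r, j) = pq false r j := if_neg (by simp)
    rw [hA, hB]
    refine ⟨?_, ?_, ?_, ?_⟩
    · intro k
      rw [ev_zero, ev_zero, neg_zero]
    · intro k
      exact ev_pq_neg _ _ _ k
    · intro _ _
      exact ev_zero _
    · intro l t
      rw [ev_pq, EZ_curve, Int.cast_zero, zero_mul]
  · have hA : Aq (true, r, j) = pq true r j := if_pos rfl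
    have hB : Bq (true, r, j) = 0 := if_pos rfl
    rw [hA, hB]
    refine ⟨?_, ?_, ?_, ?_⟩
    · intro k
      exact ev_pq_neg _ _ _ k
    · intro k
      rw [ev_zero, ev_zero, neg_zero]
    · intro l t
      rw [ev_pq, EZ_axis, Int.cast_zero, zero_mul]
    · intro _ _
      exact ev_zero _

theorem deg_Aq (q : Bool × Fin 15 × Fin 3) : (Aq q).totalDegree ≤ 2201 := by
  unfold Aq
  split_ifs
  · exact deg_pq _ _ _
  · rw [MvPolynomial.totalDegree_zero]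
    exact Nat.zero_le _

theorem deg_Bq (q : Bool × Fin 15 × Fin 3) : (Bq q).totalDegree ≤ 2201 := by
  unfold Bq
  split_ifs
  · rw [MvPolynomial.totalDegree_zero]
    exact Nat.zero_le _
  · exact deg_pq _ _ _

theorem ωQ_q (q : Bool × Fin 15 × Fin 3) (x : Md) : ωQ (Aq q) (Bq q) x =
    if x.2 = q.1 then (EZ q.1 x.1.1 : ℝ) * (vz q.2.1 x.1.1 : ℝ) ^ (1831 + 2 * q.2.2.1) else 0 := by
  obtain ⟨s, r, j⟩ := q
  obtain ⟨k, u⟩ := x
  unfold ωQ Aq Bq
  cases s <;> cases u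
  · show ev (pq false r j) k.1 = (EZ false k.1 : ℝ) * (vz r k.1 : ℝ) ^ (1831 + 2 * j.1)
    exact ev_pq _ _ _ _
  · show ev 0 k.1 = 0
    exact ev_zero _
  · show ev 0 k.1 = 0
    exact ev_zero _
  · show ev (pq true r j) k.1 = (EZ true k.1 : ℝ) * (vz r k.1 : ℝ) ^ (1831 + 2 * j.1)
    exact ev_pq _ _ _ _

/-! ### The detuning -/

/-- the detuning of a triad -/
noncomputable def dq (A B : MvPolynomial (Fin 3) ℝ) (i a b : Md) : ℝ :=
  ωQ A B a + ωQ A B b - ωQ A B i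

theorem dq_q (q : Bool × Fin 15 × Fin 3) (i a b : Md) : dq (Aq q) (Bq q) i a b = Fc i a b q := by
  unfold dq Fc
  rw [ωQ_q, ωQ_q, ωQ_q]

theorem ωQ_sum {L : Type} [Fintype L] (A B : L → MvPolynomial (Fin 3) ℝ) (c : L → ℝ) (i : Md) :
    ωQ (∑ l, MvPolynomial.C (c l) * A l) (∑ l, MvPolynomial.C (c l) * B l) i =
      ∑ l, c l * ωQ (A l) (B l) i := by
  unfold ωQ
  split_ifs
  · rw [ev_sum]
    exact Finset.sum_congr rfl fun l _ => by rw [ev_mul, ev_C]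
  · rw [ev_sum]
    exact Finset.sum_congr rfl fun l _ => by rw [ev_mul, ev_C]

theorem dq_sum {L : Type} [Fintype L] (A B : L → MvPolynomial (Fin 3) ℝ) (c : L → ℝ)
    (i a b : Md) :
    dq (∑ l, MvPolynomial.C (c l) * A l) (∑ l, MvPolynomial.C (c l) * B l) i a b =
      ∑ l, c l * dq (A l) (B l) i a b := by
  unfold dq
  rw [ωQ_sum, ωQ_sum, ωQ_sum, ← Finset.sum_add_distrib, ← Finset.sum_sub_distrib]
  exact Finset.sum_congr rfl fun l _ => by ring

/-- the triads -/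
def Good (τ : Md × Md × Md) : Prop :=
  τ.2.1.1.1 + τ.2.2.1.1 = τ.1.1.1 ∧ npar τ.2.1.1.1 τ.2.2.1.1 ∧
    ¬ (unr τ.2.1 ∧ unr τ.2.2 ∧ unr τ.1)

abbrev Tr : Type := {τ : Md × Md × Md // Good τ}

/-- the position of a triad -/
def pos (τ : Tr) : (Md × Md) × Bool := ((τ.1.2.1, τ.1.2.2), τ.1.1.2)

theorem pos_inj : Function.Injective pos := by
  rintro ⟨⟨⟨⟨i, hi⟩, s⟩, a, b⟩, h⟩ ⟨⟨⟨⟨i', hi'⟩, s'⟩, a', b'⟩, h'⟩ he
  unfold pos at he
  simp only [Prod.mk.injEq] at he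
  obtain ⟨⟨ha, hb⟩, hs⟩ := he
  subst ha hb hs
  have e1 := h.1
  have e2 := h'.1
  simp only at e1 e2
  have e3 : i = i' := by rw [← e1, ← e2]
  subst e3
  rfl

theorem bound_sup {L : Type} [Fintype L] (c f : L → ℝ) :
    |∑ l, c l * f l| ≤ (∑ l, |c l|) * ⨆ l, |f l| := by
  rw [Finset.sum_mul]
  refine (Finset.abs_sum_le_sum_abs _ _).trans (Finset.sum_le_sum fun l _ => ?_)
  rw [abs_mul]
  exact mul_le_mul_of_nonneg_left (le_ciSup (f := fun l => |f l|)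
    (Set.finite_range fun l => |f l|).bddAbove l) (abs_nonneg _)

theorem t_FAM : S_FAM := by
  classical
  intro hARI2 hVAN hLIN hAE hCODE hLAT L _ A B hF
  obtain ⟨c1, c2, c3, c4, c5, c6⟩ := hCODE
  obtain ⟨⟨hs4, -⟩, -⟩ := hLAT
  obtain ⟨c, hc, hV⟩ := hVAN hLIN
  have hbig : ∀ q : Bool × Fin 15 × Fin 3, ∃ d : L → ℝ, Aq q = ∑ l, MvPolynomial.C (d l) * A l ∧
      Bq q = ∑ l, MvPolynomial.C (d l) * B l :=
    fun q => hF.big (Aq q) (Bq q) (adm_q q) (deg_Aq q) (deg_Bq q)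
  choose d hdA hdB using hbig
  obtain ⟨C, hC⟩ : ∃ C : ℝ, C = 1 + ∑ q, ∑ l, |d q l| := ⟨_, rfl⟩
  have hCpos : 0 < C := by
    rw [hC]
    have : 0 ≤ ∑ q, ∑ l, |d q l| :=
      Finset.sum_nonneg fun q _ => Finset.sum_nonneg fun l _ => abs_nonneg _
    linarith
  have hCq : ∀ q, ∑ l, |d q l| ≤ C := by
    intro q
    have h1 : ∑ l, |d q l| ≤ ∑ q, ∑ l, |d q l| :=
      Finset.single_le_sum (f := fun q => ∑ l, |d q l|)
        (fun q _ => Finset.sum_nonneg fun l _ => abs_nonneg _) (Finset.mem_univ q)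
    rw [hC]
    linarith
  -- the coefficients
  let F : Tr → L → ℝ := fun τ l => dq (A l) (B l) τ.1.1 τ.1.2.1 τ.1.2.2
  have hsup0 : ∀ τ, 0 ≤ ⨆ l, |F τ l| := fun τ => Real.iSup_nonneg fun l => abs_nonneg _
  have hFc : ∀ (τ : Tr) (q : Bool × Fin 15 × Fin 3),
      |Fc τ.1.1 τ.1.2.1 τ.1.2.2 q| ≤ C * ⨆ l, |F τ l| := by
    intro τ q
    rw [← dq_q, hdA, hdB, dq_sum]
    exact (bound_sup (d q) (F τ)).trans (mul_le_mul_of_nonneg_right (hCq q) (hsup0 τ))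
  obtain ⟨K, hK⟩ : ∃ K : ℝ, K = 4 ^ (61 * 30) := ⟨_, rfl⟩
  have hKpos : 0 < K := by
    rw [hK]
    exact pow_pos (by norm_num) _
  have hln : ∀ x : Md, 1 ≤ ln x := fun x => (c5 x).1
  have hmx1 : ∀ τ : Tr, 1 ≤ mx τ.1.1 (τ.1.2.1, τ.1.2.2) := by
    intro τ
    exact (hln _).trans (le_max_right _ _)
  have hmxa : ∀ τ : Tr, ln τ.1.2.1 ≤ mx τ.1.1 (τ.1.2.1, τ.1.2.2) := by
    intro τ
    exact (le_max_left _ _).trans (le_max_left _ _)
  have hmxb : ∀ τ : Tr, ln τ.1.2.2 ≤ mx τ.1.1 (τ.1.2.1, τ.1.2.2) := by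
    intro τ
    exact (le_max_right _ _).trans (le_max_left _ _)
  have hmain : ∀ τ : Tr, c * mx τ.1.1 (τ.1.2.1, τ.1.2.2) ^ 26 ≤ K * C * ⨆ l, |F τ l| := by
    intro τ
    obtain ⟨m, hm⟩ : ∃ m, m = mx τ.1.1 (τ.1.2.1, τ.1.2.2) := ⟨_, rfl⟩
    obtain ⟨k, hk, hku, hkm⟩ := hARI2 τ.1.1 τ.1.2.1 τ.1.2.2 τ.2.1 τ.2.2.1 τ.2.2.2
    obtain ⟨q, hq⟩ := hV τ.1.1 τ.1.2.1 τ.1.2.2 k τ.2.1 τ.2.2.1 hk hku
    have hm1 := hmx1 τ
    rw [← hm] at hm1 hkm hq ⊢
    have hm0 : 0 < m := lt_of_lt_of_le one_pos hm1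
    obtain ⟨x, hx⟩ : ∃ x, x = ln k := ⟨_, rfl⟩
    have hx1 : 1 ≤ x := by
      rw [hx]
      exact hln k
    rw [← hx] at hkm hq
    have h1 : m ^ 30 ≤ K * x ^ 1831 := by
      calc m ^ 30 ≤ ((4 * x) ^ 61) ^ 30 := pow_le_pow_left₀ hm0.le hkm 30
        _ = (4 * x) ^ (61 * 30) := (pow_mul _ _ _).symm
        _ = K * x ^ (61 * 30) := by rw [mul_pow, hK]
        _ ≤ K * x ^ 1831 := mul_le_mul_of_nonneg_left
            (pow_le_pow_right₀ hx1 (by norm_num)) hKpos.le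
    have h2 : c * m ^ 30 ≤ K * (m ^ 4 * (C * ⨆ l, |F τ l|)) := by
      calc c * m ^ 30 ≤ c * (K * x ^ 1831) := mul_le_mul_of_nonneg_left h1 hc.le
        _ = K * (c * x ^ 1831) := by ring
        _ ≤ K * (m ^ 4 * |Fc τ.1.1 τ.1.2.1 τ.1.2.2 q|) := mul_le_mul_of_nonneg_left hq hKpos.le
        _ ≤ K * (m ^ 4 * (C * ⨆ l, |F τ l|)) := mul_le_mul_of_nonneg_left
            (mul_le_mul_of_nonneg_left (hFc τ q) (pow_pos hm0 4).le) hKpos.le
    have h3 : m ^ 4 * (c * m ^ 26) ≤ m ^ 4 * (K * C * ⨆ l, |F τ l|) := by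
      calc m ^ 4 * (c * m ^ 26) = c * m ^ 30 := by ring
        _ ≤ K * (m ^ 4 * (C * ⨆ l, |F τ l|)) := h2
        _ = m ^ 4 * (K * C * ⨆ l, |F τ l|) := by ring
    exact le_of_mul_le_mul_left h3 (pow_pos hm0 4)
  have hsup : ∀ τ : Tr, 0 < ⨆ l, |F τ l| := by
    intro τ
    have h1 := hmain τ
    have h2 : 0 < c * mx τ.1.1 (τ.1.2.1, τ.1.2.2) ^ 26 :=
      mul_pos hc (pow_pos (lt_of_lt_of_le one_pos (hmx1 τ)) 26)
    by_contra hn
    have h3 : (⨆ l, |F τ l|) = 0 := le_antisymm (not_lt.1 hn) (hsup0 τ)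
    rw [h3, mul_zero] at h1
    linarith
  have hne : ∀ τ : Tr, ∃ l, F τ l ≠ 0 := by
    intro τ
    by_contra hn
    push Not at hn
    have h1 := hsup τ
    simp only [hn, abs_zero, Real.iSup_const_zero] at h1
    exact lt_irrefl _ h1
  -- summability
  have hsumg : Summable (fun p : (Md × Md) × Bool =>
      ((ln p.1.1 ^ 4)⁻¹ * (ln p.1.2 ^ 4)⁻¹) * (1 : ℝ)) := by
    have h0 : ∀ x : Md, 0 ≤ (ln x ^ 4)⁻¹ := fun x => inv_nonneg.2
      (pow_nonneg (zero_le_one.trans (hln x)) 4)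
    have h1 : Summable (fun p : Md × Md => (ln p.1 ^ 4)⁻¹ * (ln p.2 ^ 4)⁻¹) :=
      hs4.mul_of_nonneg hs4 (fun x => h0 x) (fun x => h0 x)
    have h2 : Summable (fun _ : Bool => (1 : ℝ)) := (hasSum_fintype _).summable
    exact h1.mul_of_nonneg h2 (fun p => mul_nonneg (h0 _) (h0 _)) (fun _ => zero_le_one)
  have hsumT : Summable (fun τ : Tr => (ln τ.1.2.1 ^ 4)⁻¹ * (ln τ.1.2.2 ^ 4)⁻¹) := by
    have h1 := hsumg.comp_injective pos_inj
    refine h1.congr fun τ => ?_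
    show ((ln τ.1.2.1 ^ 4)⁻¹ * (ln τ.1.2.2 ^ 4)⁻¹) * (1 : ℝ) = _
    rw [mul_one]
  have hfin : Summable (fun τ : Tr => mx τ.1.1 (τ.1.2.1, τ.1.2.2) ^ 16 / (⨆ l, |F τ l|)) := by
    refine Summable.of_nonneg_of_le (fun τ => ?_) (fun τ => ?_) (hsumT.mul_left (K * C / c))
    · exact div_nonneg (pow_nonneg (zero_le_one.trans (hmx1 τ)) _) (hsup0 τ)
    · have h1 := hmain τ
      have h2 := hmxa τ
      have h3 := hmxb τ
      have h4 := hmx1 τ
      have h5 := hsup τ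
      have h6 := hln τ.1.2.1
      have h7 := hln τ.1.2.2
      obtain ⟨m, hm⟩ : ∃ m, m = mx τ.1.1 (τ.1.2.1, τ.1.2.2) := ⟨_, rfl⟩
      obtain ⟨S, hS⟩ : ∃ S, S = ⨆ l, |F τ l| := ⟨_, rfl⟩
      obtain ⟨x, hx⟩ : ∃ x, x = ln τ.1.2.1 := ⟨_, rfl⟩
      obtain ⟨y, hy⟩ : ∃ y, y = ln τ.1.2.2 := ⟨_, rfl⟩
      rw [← hm] at h1 h2 h3 h4 ⊢
      rw [← hS] at h1 h5 ⊢
      rw [← hx] at h2 h6 ⊢
      rw [← hy] at h3 h7 ⊢
      have hm0 : 0 < m := lt_of_lt_of_le one_pos h4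
      have hx0 : 0 < x := lt_of_lt_of_le one_pos h6
      have hy0 : 0 < y := lt_of_lt_of_le one_pos h7
      have h8 : x ^ 4 * y ^ 4 ≤ m ^ 10 := by
        calc x ^ 4 * y ^ 4 ≤ m ^ 4 * m ^ 4 := mul_le_mul (pow_le_pow_left₀ hx0.le h2 4)
              (pow_le_pow_left₀ hy0.le h3 4) (pow_pos hy0 4).le (pow_pos hm0 4).le
          _ = m ^ 8 := by ring
          _ ≤ m ^ 10 := pow_le_pow_right₀ h4 (by norm_num)
      have hxy : 0 < x ^ 4 * y ^ 4 := mul_pos (pow_pos hx0 4) (pow_pos hy0 4)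
      rw [← mul_inv, ← div_eq_mul_inv, div_div, div_le_div_iff₀ h5 (mul_pos hc hxy)]
      calc m ^ 16 * (c * (x ^ 4 * y ^ 4)) ≤ m ^ 16 * (c * m ^ 10) :=
            mul_le_mul_of_nonneg_left (mul_le_mul_of_nonneg_left h8 hc.le) (pow_pos hm0 16).le
        _ = c * m ^ 26 := by ring
        _ ≤ K * C * S := h1
  have hcount : Countable Tr := by
    have : Countable Md := by
      unfold Md
      infer_instance
    infer_instance
  have hae := hAE Tr L F (fun τ => mx τ.1.1 (τ.1.2.1, τ.1.2.2) ^ 16)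
    (fun τ => pow_nonneg (zero_le_one.trans (hmx1 τ)) 16) hfin hne
  filter_upwards [hae] with P hP
  obtain ⟨κ, hκ, hP⟩ := hP
  refine ⟨κ, hκ, ?_⟩
  intro i a b h1 h2 h3
  have h4 := hP ⟨(i, a, b), h1, h2, h3⟩
  have h5 := dq_sum A B P i a b
  unfold dq at h5
  rw [h5]
  exact h4

end Pool.Agent.Y312.EP.Fam
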